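import Mathlib
import Pool.Agent.Q29.EP.RowsCT
import Pool.Agent.Y1.CT.More

/-!
# The conjecture of Parshin for `A × Z`, for one half of all slope types of
every CM field of degree `2 r ^ k`

Let `K i` (`i` in a finite set) be CM fields of degree `2 g i` which are pairwise independent: for
`i ≠ k` and all complex embeddings `φ` of `K i` and `ψ` of `K k` some automorphism of `ℂ` is the
identity on `φ (K i)` and the complex conjugation on `ψ (K k)` (this is no condition if there is
only one field).

We fix an isomorphism `ν` of the algebraic closure of `ℚ_p` with `ℂ`; it defines a `p`-adic
valuation of `ℂ`, with the value one at `p`. Let `M i` be a function with integral values on the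
complex embeddings of `K i`, invariant under complex conjugation (the weights). A CM type `Φ i` of
`K i` (a choice of one element out of each complex conjugate pair of embeddings), `M i` and a real
number `κ ≠ 0` prescribe the slopes `(a + κ M) / 2` (at the embeddings in `Φ i`) and `(a - κ M) / 2`
(outside of `Φ i`) of a Weil number for `p ^ a` in `K i`. If `p` splits completely in `K i` then, by
Honda and Tate, all rational slopes between `0` and `a` that are symmetric in this way occur for
abelian varieties over finite fields. The case `M = 1`, `κ = a` is the ordinary case.

**The property of the slope types.** For a family of types `Φ i` the property `Q` is the following.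
Let `π i` be Weil numbers for `q = p ^ a` that generate the fields `K i` and have the slope types
`Φ i`, `M i` (`HasType`), and let `f i` be monic polynomials whose complex roots are conjugates of
`π i` (`IsPolyOf`), for instance the characteristic polynomials of Frobenius of the abelian varieties
in the isogeny classes of the `π i` over the field with `q` elements. Let `A` be an abelian variety over the field with `Q = q ^ s`
elements which is isogenous to a product of powers of abelian varieties coming from the field with
`q` elements, with characteristic polynomials `f i`, and let `Z` be **any** smooth projective variety
over the field with `Q` elements such that

* the eigenvalues `ρ` of Frobenius on the cohomology of `Z` and their conjugates are independent of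
  the fields `K i` (`Independent`): for each complex embedding `ψ` of `K i` there is an automorphism
  `τ` of `ℂ` which fixes a power of `ρ` and is the complex conjugation on `ψ (K i)`. This is so if the
  eigenvalues have powers in a number field which is linearly disjoint from the normal closures of
  the `K i`, or powers in a totally real field (take for `τ` the complex conjugation);
* homologically trivial self-correspondences of degree zero of `A × Z` are nilpotent, for instance
  the motive of `Z` is finite-dimensional in the sense of Kimura and O'Sullivan.

There are finitely many products `D j` of divisors on `A`, of codimension `c j`, such that for the
rational `K`-groups, with their Adams gradings, `K_m(A × Z)^(i) = ⨁ D j × K_m(Z)^(i - c j)` for all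
`i` and all `m`, and **`K_m(A × Z)_ℚ = 0` if and only if `K_m(Z)_ℚ = 0`, for every `m`: the conjecture
of Parshin for `A × Z` is equivalent to the one for `Z`, and this for each `m` separately**
(`KGroupsTimes`). If `Z` is a point or a curve then it is true for `Z` (theorems of Quillen and Harder),
and so it is true for `A × Z`. The group `T = K_m( )_ℚ` is a family of rational vector spaces with a
grading on which correspondences act, and which is the sum of its graded parts
(`IsRationalKGroup`); the Frobenius endomorphism of `A × Z` acts on `K_m(A × Z)^(i)` as
multiplication by `Q ^ i`.

The framework (`TheoryData`, `IsChow`, `IsWeil`) is the one of helper492: the Chow groups `C` with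
their pull-backs, push-forwards and products, and a Weil cohomology theory `H` with coefficients in
an algebraically closed field, on a class `𝒱` of smooth proper varieties over `k`.

**The theorem.** Let `E` be **any CM field of degree `2 g = 2 r ^ k`**, `r` a prime number, of
degree at least `16` if `r = 2`. Nothing is assumed about the Galois group of the normal closure of
`E`, and nothing about the subfields of `E`.

* (`HalfOfAll`) For all weights `M` (odd if `r = 2`; if `r` is odd then `r` may divide some, but not
  all of them) the property `Q` is true for **at least one half of all `2 ^ g` types** of `E`.
* (`MostWithWeightsOne`) For the weights `M = 1` (for instance in the ordinary case) it is true for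
  at least `(1 - 1 / r) 2 ^ g` of the types.
* (`OneOfTwo`) There is a set `B` of embeddings of `E`, stable under complex conjugation, such that
  for **every** type `Φ` it is true for `Φ` or for the symmetric difference of `Φ` and `B`.
* (`SixteenPercent`) There is a number `g₀` such that for every CM field that is **abelian over
  `ℚ`**, of any degree `2 g ≥ 2 g₀`, and all odd weights it is true for at least 16 percent of all
  `2 ^ g` types; again nothing is assumed on the subfields.

All this is proved more generally for finitely many pairwise independent fields `K i`; the
proportions are then multiplied. The estimate `AllCMTypesTimes` says nothing for these fields if they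
have many CM subfields (for instance for the multiquadratic ones, where one half is the best possible
proportion for the types without relations).

The proof: if no multiplicative relations between the Frobenius eigenvalues of `A` and those of `Z` are left, then
a correspondence which is homologically trivial, hence nilpotent, acts on the `K`-groups as an
idempotent, which gives the Kunneth formula for `K_m(A × Z)_ℚ`
(`Y1/CT` of the starting files). The proportion of the types without such relations is at least one
half by the theorem of the starting files (`Q29/DP`, `Q29/EP`), which was used there for other
conjectures.
-/

set_option autoImplicit false

namespace Pool.Agent.Results.MP_27fd67_ag.HalfOfAllTimes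

open NumberField Module Pool.Agent.H204R3.CM Pool.Agent.H977R3.CM Pool.Agent.Y1.KN
  Pool.Agent.Y1.CT Pool.Agent.Q29.EP

open Pool.Agent.Q29.DP (of_independent)

/-- The property of the slope types `Φ i` with the weights `M i`. -/
def Q : TypeProperty := fun _ _ ν _ _ K _ _ _ M Φ => ForAllTypes ν K M (KGroupsTimes K) Φ

/-- **The conjecture of Parshin for `A × Z` is equivalent to the one for `Z`, for every `K_m`,
for the abelian varieties `A` with one half of all slope types of every CM field of degree
`2 r ^ k`.** -/
theorem result : HalfOfAll Q ∧ MostWithWeightsOne Q ∧ OneOfTwo Q ∧ SixteenPercent Q := by
  have h : WithoutRelations Q := of_independent (P := fun _ K _ => KGroupsTimes K)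
    fun _ _ _ _ _ _ hQ hR => kGroupsTimes hQ hR
  exact ⟨halfOfAll h, mostWithWeightsOne h, oneOfTwo h, sixteenPercent h⟩

end Pool.Agent.Results.MP_27fd67_ag.HalfOfAllTimes
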