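import Pool.Agent.Run7.h848.PF.Main

/-!
# Parshin's conjecture: the conjecture of Tate and the growth of the K-groups of the powers

Let `Y` be a smooth projective variety over the field with `q` elements, `m ≥ 1`, and

* `K_m(Y)_ℚ = ⊕_j K_m(Y)_ℚ^(j)` the decomposition under the Adams operations; the Frobenius endomorphism
  of `Y` acts on `K_m(Y)_ℚ^(j)` as multiplication by `q ^ j`;
* `ρ(Y)` the rank of the group of the cycles of all codimensions on `Y` modulo numerical equivalence.

We say that `Tate(Y, j)` holds if the dimension of the generalized eigenspace of Frobenius for `q ^ j` on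
`H^(2 j)(Y, ℚ_ℓ)` is the rank of the group of the cycles of codimension `j` modulo numerical
equivalence (the strong form of the conjecture of Tate). It is known in many cases, for instance for all
`j` if `Y` is a K3 surface, a surface dominated by a product of curves, or a cubic threefold, and
trivially for `j > dim Y`; for all powers of an ordinary K3 surface it is a theorem of Zarhin.

**Theorem 1.** Suppose that `Tate(Y, j)` is true and `K_m(Y)_ℚ^(j) ≠ 0`. Then

  `dim K_m(Y ^ (a + 1))_ℚ ≥ (a + 1) ρ(Y ^ a)` for ALL `a ≥ 0`.

So for a variety `Y` with the strong form of the conjecture of Tate (in all codimensions) each single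
inequality of this kind implies Parshin's conjecture for `Y`, for example

  `dim K_m(Y × Y)_ℚ < 2 ρ(Y)` implies `K_m(Y)_ℚ = 0`.

Nothing is assumed on the powers of `Y`, and rational equivalence is not related to numerical equivalence
(known before: the conjecture of Tate together with the conjecture of Beilinson that rational and
numerical equivalence agree, or with the finite-dimensionality of the motive in the sense of Kimura,
implies Parshin's conjecture; Geisser, Kahn).

**Theorem 2** (law for all powers). Let `X` be any smooth projective variety over the field with `q`
elements. The quotient `dim K_m(X ^ n)_ℚ / ρ(X ^ n)` converges, for `n → ∞`, to an element `N` of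
`{0, 1, 2, …, ∞}`, and

* `N = 0` if and only if `K_m(X ^ n)_ℚ = 0` for ALL `n`;
* if `N` is finite then all `K_m(X ^ n)_ℚ` are finite-dimensional, each composition of `N` numerically
  trivial correspondences between powers of `X` acts on them as zero, and they are generated, under the
  action of the correspondences, by at most `N` elements on one power;
* if `Tate(X ^ n, j)` is true and `K_m(X ^ n)_ℚ^(j) ≠ 0` for one pair `(n, j)`, then `N = ∞`;
* if `Tate(X ^ n, j)` is true for all `n` and `j` (for instance if `X` is an ordinary K3 surface) then
  `N = 0` or `N = ∞`: either Parshin's conjecture is true for all powers of `X`, or the K-groups of the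
  powers are larger than any multiple of `ρ(X ^ n)`.

**Theorem 3** (gap). If `K_m(X ^ s)_ℚ ≠ 0` for one `s`, then for ALL `n` with
`2 n ≥ 128 (s + 1) ^ 2 b ^ (2 s + 6)`, `b` the sum of the Betti numbers of `X`, the dimension of
`K_m(X ^ (2 n))_ℚ` is at least `ρ(X ^ (2 n)) / 2` and at least `b ^ (2 n) / (2 (n + 1) ^ (b ^ 2))`.

The setting. `C` is the category of the smooth projective varieties over the field with `q` elements with
the groups `CH^*(Y × Z)_ℚ` (all codimensions) as morphisms, a rigid symmetric monoidal category in which
all objects are self-dual; `Λ = ℚ`, `T = h(X)`, `tp T n = h(X ^ n)`, `R` is the `ℓ`-adic cohomology with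
coefficients extended to an algebraic closure `K` of `ℚ_ℓ`. The sign conjecture `C⁺` (in `IsPow`) is
known for all `X` by Katz and Messing. The structure `KTheory` (in `Pool/Agent/Run7/h848/PF/Defs.lean`)
records what is used of the K-groups: correspondences act on them, `K_m` of the point is torsion
(Quillen), and the decomposition under the Adams operations.

Proof of Theorem 1. Let `v ≠ 0` be in `K_m(Y)_ℚ^(j)`, and let `I` be the space of the correspondences of `Y`
which kill `v`. It contains the products of `Fr - q ^ j` with all correspondences, and all
correspondences which factor through a point, by the theorem of Quillen. If `I` did not contain the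
diagonal modulo numerical equivalence, there would be a correspondence `g` with `tr (x g) = 0` for all
`x` in `I` and `tr g ≠ 0`. But the projector of the cohomology to the generalized eigenspace for
`q ^ j` is, by the conjecture of Tate, a linear combination of correspondences which factor through a
point, and the complementary projector is a combination of products with `Fr - q ^ j`, hence
`tr g = 0` (`cut` in `Cut.lean`). So there is a correspondence `e` which is numerically equivalent to the
diagonal and kills `v`. Now insert `v` into the `a + 1` factors of `Y ^ (a + 1)`, with arbitrary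
cycles on the other factors: the correspondence `e` separates the factors (`phantom` in `N64/AF` of the
starting tree). The law and the gap are those of `N64/AF` for the functor `K_m( )_ℚ`; for finite `N`
numerically trivial correspondences act nilpotently, and `v = (1 - e) v` is a contradiction.
-/

set_option autoImplicit false

open CategoryTheory MonoidalCategory
open Pool.Agent.Y112.SR Pool.Agent.Y112.KD Pool.Agent.N64.AF Pool.Agent.Run7.h184.AJ
open Pool.Agent.Run7.h848.PF

namespace Pool.Agent.Results.MP_27fd67_ag.TateAndGrowth

universe v u w t x

/-- Rational K-groups of varieties over a finite field: growth under the conjecture of Tate, the law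
for all powers, and the gap. -/
theorem result {C : Type u} [Category.{v} C] [Preadditive C] [MonoidalCategory C]
    [MonoidalPreadditive C] [SymmetricCategory C] [RightRigidCategory C]
    {Λ : Type t} [Field Λ] [CharZero Λ] [Linear Λ C] [MonoidalLinear Λ C]
    {K : Type w} [Field K] [IsAlgClosed K] [Algebra Λ K] {R : SuperRealisation C K}
    {q : Λ} (P : KTheory.{v, u, t, x} C Λ q) {T : C} [ExactPairing T T] (h : IsPow Λ R T) :
    (∀ (Y : C) (j : ℕ), P.Tate R Y j → P.wt Y j ≠ ⊥ → P.Grows Y) ∧
    (∀ Y : C, (∀ j, P.Tate R Y j) → ¬ Subsingleton (P.Km.obj Y) → P.Grows Y) ∧
    (∃ N : ℕ∞, RatioTo Λ T (fun n => dimE Λ (P.Km.obj (tp T n))) N ∧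
      (N = 0 ↔ ∀ n, Subsingleton (P.Km.obj (tp T n))) ∧
      (∀ k : ℕ, N = k → P.OfLength T k) ∧
      (∀ n j, P.Tate R (tp T n) j → P.wt (tp T n) j ≠ ⊥ → N = ⊤) ∧
      ((∀ n j, P.Tate R (tp T n) j) → N = 0 ∨ N = ⊤)) ∧
    ∀ m n : ℕ, 128 * (m + 1) ^ 2 * bt R T ^ (2 * m + 6) ≤ 2 * n →
      ¬ Subsingleton (P.Km.obj (tp T m)) →
        Large Λ R T n (dimE Λ (P.Km.obj (tp T (2 * n)))) :=
  P.main h

end Pool.Agent.Results.MP_27fd67_ag.TateAndGrowth
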